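import Pool.Agent.W425.ND.Stm

/-! ND-CN (helper782): the connection lemma. -/

set_option autoImplicit false

namespace Pool.Agent.W782.ND

open MvPolynomial Pool.Agent.W425.ND

theorem krull1 {R N : Type} [CommRing R] [IsNoetherianRing R] [AddCommGroup N] [Module R N]
    (P : Submodule R N) (hP : P.FG) (t : R) (y : N) (hy : y ∈ P)
    (h : ∀ j : ℕ, ∃ z ∈ P, y = t ^ j • z) : ∃ r ∈ Ideal.span {t}, r • y = y := by
  have hfin : Module.Finite R P := Module.Finite.iff_fg.2 hP
  have h1 : (⟨y, hy⟩ : P) ∈ (⨅ i : ℕ, Ideal.span {t} ^ i • ⊤ : Submodule R P) := by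
    rw [Submodule.mem_iInf]
    intro j
    obtain ⟨z, hz, e⟩ := h j
    have e2 : (⟨y, hy⟩ : P) = t ^ j • (⟨z, hz⟩ : P) := Subtype.ext e
    rw [e2]
    exact Submodule.smul_mem_smul (Ideal.pow_mem_pow (Ideal.mem_span_singleton_self t) j)
      Submodule.mem_top
  obtain ⟨r, hr⟩ := (Ideal.mem_iInf_smul_pow_eq_bot_iff (Ideal.span {t}) _).1 h1
  exact ⟨r, r.2, congrArg Subtype.val hr⟩

section dc
variable {σ k : Type} [Field k]

theorem coeff_dC (p : MvPolynomial σ (PowerSeries k)) (m : σ →₀ ℕ) :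
    coeff m (dC p) = PowerSeries.derivative k (coeff m p) := by
  classical
  unfold dC
  rw [coeff_sum]
  simp only [coeff_monomial]
  rw [Finset.sum_ite_eq']
  split_ifs with h
  · rfl
  · rw [notMem_support_iff.1 h, map_zero]

theorem dC_add (p q : MvPolynomial σ (PowerSeries k)) : dC (p + q) = dC p + dC q := by
  ext1 m
  rw [coeff_add, coeff_dC, coeff_dC, coeff_dC, coeff_add, map_add]

theorem dC_zero : dC (0 : MvPolynomial σ (PowerSeries k)) = 0 := by
  ext1 m
  rw [coeff_dC, coeff_zero, map_zero]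

theorem dC_neg (p : MvPolynomial σ (PowerSeries k)) : dC (-p) = -dC p := by
  ext1 m
  rw [coeff_neg, coeff_dC, coeff_dC, coeff_neg, map_neg]

theorem dC_sub (p q : MvPolynomial σ (PowerSeries k)) : dC (p - q) = dC p - dC q := by
  rw [sub_eq_add_neg, dC_add, dC_neg, sub_eq_add_neg]

theorem dC_mul (p q : MvPolynomial σ (PowerSeries k)) :
    dC (p * q) = p * dC q + dC p * q := by
  classical
  ext1 m
  rw [coeff_dC, coeff_mul, coeff_add, coeff_mul, coeff_mul, map_sum, ← Finset.sum_add_distrib]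
  apply Finset.sum_congr rfl
  intro x _
  rw [Derivation.leibniz, coeff_dC, coeff_dC, smul_eq_mul, smul_eq_mul]
  ring

theorem dC_C (a : PowerSeries k) :
    dC (C a : MvPolynomial σ (PowerSeries k)) = C (PowerSeries.derivative k a) := by
  classical
  ext1 m
  rw [coeff_dC, coeff_C, coeff_C]
  split_ifs
  · rfl
  · rw [map_zero]

theorem dC_map (β : MvPolynomial σ k) :
    dC (map PowerSeries.C β : MvPolynomial σ (PowerSeries k)) = 0 := by
  ext1 m
  rw [coeff_dC, coeff_map, coeff_zero]
  have h := (PowerSeries.derivative k).map_algebraMap (coeff m β)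
  exact h

theorem dC_one : dC (1 : MvPolynomial σ (PowerSeries k)) = 0 := by
  have := dC_map (σ := σ) (k := k) 1
  rwa [map_one] at this

/-- the parameter -/
noncomputable def tau : MvPolynomial σ (PowerSeries k) := C PowerSeries.X

theorem dC_tau : dC (tau : MvPolynomial σ (PowerSeries k)) = 1 := by
  unfold tau
  rw [dC_C, PowerSeries.derivative_X, map_one]

theorem dC_tau_pow (j : ℕ) : dC (tau ^ (j + 1) : MvPolynomial σ (PowerSeries k)) =
    ((j + 1 : ℕ) : MvPolynomial σ (PowerSeries k)) * tau ^ j := by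
  induction j with
  | zero => simp [dC_tau]
  | succ j ih =>
    rw [pow_succ, dC_mul, ih, dC_tau]
    push_cast
    ring

theorem support_dC (p : MvPolynomial σ (PowerSeries k)) : (dC p).support ⊆ p.support := by
  intro m hm
  rw [mem_support_iff, coeff_dC] at hm
  rw [mem_support_iff]
  intro h
  rw [h, map_zero] at hm
  exact hm rfl

/-- the inverse of a natural number -/
noncomputable def iv (j : ℕ) : MvPolynomial σ (PowerSeries k) := C (PowerSeries.C ((j : k)⁻¹))

theorem iv_mul [CharZero k] (j : ℕ) :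
    (iv (j + 1) : MvPolynomial σ (PowerSeries k)) * ((j + 1 : ℕ) : MvPolynomial σ (PowerSeries k))
      = 1 := by
  unfold iv
  have h1 : ((j + 1 : ℕ) : MvPolynomial σ (PowerSeries k)) =
      C (PowerSeries.C (((j + 1 : ℕ) : k))) := by
    rw [map_natCast, map_natCast]
  rw [h1, ← C_mul, ← map_mul, inv_mul_cancel₀ (by exact_mod_cast Nat.succ_ne_zero j), map_one,
    map_one]

end dc

theorem cn : TaskCN := by
  intro k σ M _ _ _ _ _ nb hnb Z W Z0 hZ hWZ hZ0Z hnZ hnW hnZ0 β hβ
  classical
  set b : MvPolynomial σ (PowerSeries k) := map PowerSeries.C β with hb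
  have hdb : dC b = 0 := dC_map β
  obtain ⟨τ, hτ⟩ : ∃ τ : MvPolynomial σ (PowerSeries k), τ = tau := ⟨_, rfl⟩
  have dtp : ∀ j : ℕ, dC (τ ^ (j + 1)) =
      ((j + 1 : ℕ) : MvPolynomial σ (PowerSeries k)) * τ ^ j := fun j => by
    rw [hτ]; exact dC_tau_pow j
  have hβ' : ∀ x ∈ Z0, ∃ w ∈ W, ∃ z ∈ Z, b • x = w + τ • z := by
    rw [hτ]; exact hβ
  -- step 1
  have step1 : ∀ j : ℕ, ∀ x ∈ Z0, ∃ w ∈ W, ∃ z ∈ Z, b • x = w + τ ^ (j + 1) • z := by
    intro j
    induction j with
    | zero => intro x hx; simpa using hβ' x hx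
    | succ j ih =>
      intro x hx
      obtain ⟨w, hw, z, hz, e⟩ := ih x hx
      obtain ⟨w', hw', z', hz', e'⟩ := ih (nb x) (hnZ0 x hx)
      have e1 : nb (b • x) = b • nb x := by rw [hnb, hdb, zero_smul, add_zero]
      have e2 : nb (τ ^ (j + 1) • z) = τ ^ (j + 1) • nb z +
          (((j + 1 : ℕ) : MvPolynomial σ (PowerSeries k)) * τ ^ j) • z := by
        rw [hnb, dtp]
      have e3 : b • nb x = nb w + (τ ^ (j + 1) • nb z +
          (((j + 1 : ℕ) : MvPolynomial σ (PowerSeries k)) * τ ^ j) • z) := by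
        rw [← e1, e, map_add, e2]
      rw [e'] at e3
      -- multiply by τ / (j+1)
      have e4 : τ ^ (j + 1) • z = ((iv (j + 1) : MvPolynomial σ (PowerSeries k)) * τ) • (w' - nb w) +
          τ ^ (j + 2) • ((iv (j + 1) : MvPolynomial σ (PowerSeries k)) • (z' - nb z)) := by
        have e5 : (((j + 1 : ℕ) : MvPolynomial σ (PowerSeries k)) * τ ^ j) • z =
            (w' - nb w) + τ ^ (j + 1) • (z' - nb z) := by
          rw [smul_sub]
          have := e3
          rw [← sub_eq_zero] at this ⊢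
          rw [← neg_eq_zero, ← this]
          abel
        have e6 := congrArg (fun y => ((iv (j + 1) : MvPolynomial σ (PowerSeries k)) * τ) • y) e5
        simp only [smul_add, smul_smul] at e6
        have e7 : (iv (j + 1) : MvPolynomial σ (PowerSeries k)) * τ * (((j + 1 : ℕ) : MvPolynomial σ (PowerSeries k)) * τ ^ j) =
            τ ^ (j + 1) := by
          calc _ = ((iv (j + 1) : MvPolynomial σ (PowerSeries k)) * ((j + 1 : ℕ) : MvPolynomial σ (PowerSeries k))) * τ ^ (j + 1) := by
                ring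
            _ = _ := by rw [iv_mul, one_mul]
        rw [e7] at e6
        rw [e6, smul_smul]
        congr 2
        ring
      refine ⟨w + ((iv (j + 1) : MvPolynomial σ (PowerSeries k)) * τ) • (w' - nb w),
        W.add_mem hw (W.smul_mem _ (W.sub_mem hw' (hnW w hw))),
        (iv (j + 1) : MvPolynomial σ (PowerSeries k)) • (z' - nb z), Z.smul_mem _ (Z.sub_mem hz' (hnZ z hz)), ?_⟩
      rw [e, e4, add_assoc]
  have step1' : ∀ j : ℕ, ∀ x ∈ Z0, ∃ w ∈ W, ∃ z ∈ Z, b • x = w + τ ^ j • z := by
    intro j x hx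
    cases j with
    | zero => exact ⟨0, W.zero_mem, b • x, Z.smul_mem _ (hZ0Z hx), by simp⟩
    | succ j => exact step1 j x hx
  -- step 2
  set T : Submodule (MvPolynomial σ (PowerSeries k)) (M ⧸ W) := (Z0.map (LinearMap.lsmul (MvPolynomial σ (PowerSeries k)) M b)).map W.mkQ with hT
  have hTfg : T.FG := by
    have : IsNoetherian (MvPolynomial σ (PowerSeries k)) Z := isNoetherian_of_fg_of_noetherian Z hZ
    have h1 : Z0.FG := by
      have h2 : (Z0.submoduleOf Z).FG := IsNoetherian.noetherian _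
      have h3 : Z0 = (Z0.submoduleOf Z).map Z.subtype := by
        rw [Submodule.submoduleOf, Submodule.map_comap_subtype, inf_eq_right.2 hZ0Z]
      rw [h3]
      exact h2.map _
    exact (h1.map _).map _
  have hTmem : ∀ y ∈ T, ∃ x ∈ Z0, W.mkQ (b • x) = y := by
    rintro y ⟨_, ⟨x, hx, rfl⟩, rfl⟩
    exact ⟨x, hx, rfl⟩
  have hT1 : T ≤ Ideal.span {τ} • T := by
    intro y hy
    obtain ⟨x, hx, rfl⟩ := hTmem y hy
    obtain ⟨r, hr, hry⟩ := krull1 (Z.map W.mkQ) (hZ.map _) τ (W.mkQ (b • x))
      ⟨b • x, Z.smul_mem _ (hZ0Z hx), rfl⟩ (by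
        intro j
        obtain ⟨w, hw, z, hz, e⟩ := step1' j x hx
        refine ⟨W.mkQ z, ⟨z, hz, rfl⟩, ?_⟩
        rw [e, map_add, map_smul]
        have : W.mkQ w = 0 := by
          rw [Submodule.mkQ_apply, Submodule.Quotient.mk_eq_zero]
          exact hw
        rw [this, zero_add])
    rw [← hry]
    exact Submodule.smul_mem_smul hr hy
  obtain ⟨c, hc1, hc2⟩ :=
    Submodule.exists_sub_one_mem_and_smul_eq_zero_of_fg_of_le_smul (Ideal.span {τ}) T hTfg hT1
  -- the annihilator
  let I : Ideal (MvPolynomial σ (PowerSeries k)) :=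
    { carrier := {c | ∀ x ∈ Z0, c • b • x ∈ W}
      add_mem' := by
        intro p q hp hq x hx
        rw [add_smul]
        exact W.add_mem (hp x hx) (hq x hx)
      zero_mem' := by
        intro x _
        rw [zero_smul]
        exact W.zero_mem
      smul_mem' := by
        intro p q hq x hx
        rw [smul_eq_mul, mul_smul]
        exact W.smul_mem _ (hq x hx) }
  have hIm : ∀ p, p ∈ I ↔ ∀ x ∈ Z0, p • b • x ∈ W := fun p => Iff.rfl
  have hId : ∀ p ∈ I, dC p ∈ I := by
    intro p hp x hx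
    have h1 := hnW _ (hp x hx)
    have e1 : nb (b • x) = b • nb x := by rw [hnb, hdb, zero_smul, add_zero]
    rw [hnb, e1] at h1
    have h2 := hp (nb x) (hnZ0 x hx)
    have h3 := W.sub_mem h1 h2
    rwa [add_sub_cancel_left] at h3
  have hcI : c ∈ I := by
    intro x hx
    have h1 := hc2 (W.mkQ (b • x)) ⟨b • x, ⟨x, hx, rfl⟩, rfl⟩
    rw [← map_smul, Submodule.mkQ_apply, Submodule.Quotient.mk_eq_zero] at h1
    exact h1
  obtain ⟨g, hg⟩ : ∃ g : (MvPolynomial σ (PowerSeries k)), 1 - τ * g ∈ I := by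
    obtain ⟨g, hg⟩ := Ideal.mem_span_singleton.1 hc1
    refine ⟨-g, ?_⟩
    have : 1 - τ * -g = c := by
      linear_combination -hg
    rw [this]
    exact hcI
  -- step 4
  have step4 : ∀ j : ℕ, ∃ gj : (MvPolynomial σ (PowerSeries k)), gj.support ⊆ g.support ∧ 1 - τ ^ (j + 1) * gj ∈ I := by
    intro j
    induction j with
    | zero => exact ⟨g, subset_rfl, by simpa using hg⟩
    | succ j ih =>
      obtain ⟨gj, hs, hm⟩ := ih
      refine ⟨-((iv (j + 1) : MvPolynomial σ (PowerSeries k)) * dC gj), ?_, ?_⟩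
      · intro n hn
        rw [mem_support_iff, coeff_neg, iv, coeff_C_mul] at hn
        apply hs
        apply support_dC
        rw [mem_support_iff]
        intro h0
        rw [h0, mul_zero, neg_zero] at hn
        exact hn rfl
      · have h1 := hId _ hm
        rw [dC_sub, dC_one, dC_mul, dtp, zero_sub] at h1
        have h2 := I.mul_mem_left (-((iv (j + 1) : MvPolynomial σ (PowerSeries k)) * τ)) h1
        have h3 := I.add_mem hm h2
        have e : 1 - τ ^ (j + 1) * gj + -((iv (j + 1) : MvPolynomial σ (PowerSeries k)) * τ) * -(τ ^ (j + 1) * dC gj +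
            ((j + 1 : ℕ) : (MvPolynomial σ (PowerSeries k))) * τ ^ j * gj) =
            1 - τ ^ (j + 1 + 1) * -((iv (j + 1) : MvPolynomial σ (PowerSeries k)) * dC gj) +
            ((iv (j + 1) : MvPolynomial σ (PowerSeries k)) * ((j + 1 : ℕ) : (MvPolynomial σ (PowerSeries k))) - 1) * (τ ^ (j + 1) * gj) := by
          ring
        rw [e, iv_mul, sub_self, zero_mul, add_zero] at h3
        exact h3
  -- step 5
  set A : Finset (σ →₀ ℕ) := insert 0 g.support with hA
  set F : Submodule (PowerSeries k) (MvPolynomial σ (PowerSeries k)) :=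
    Submodule.span (PowerSeries k) ((fun n => (monomial n (1 : PowerSeries k) : (MvPolynomial σ (PowerSeries k)))) '' A) with hF
  have hFfg : F.FG := ⟨A.image (fun n => (monomial n (1 : PowerSeries k) : (MvPolynomial σ (PowerSeries k)))), by
    rw [hF, Finset.coe_image]⟩
  have hFmem : ∀ p : (MvPolynomial σ (PowerSeries k)), p.support ⊆ A → p ∈ F := by
    intro p hp
    rw [p.as_sum]
    apply Submodule.sum_mem
    intro n hn
    have h1 : (monomial n (coeff n p) : (MvPolynomial σ (PowerSeries k))) = (coeff n p) • monomial n (1 : PowerSeries k) := by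
      rw [smul_monomial, smul_eq_mul, mul_one]
    rw [h1]
    exact F.smul_mem _ (Submodule.subset_span ⟨n, hp hn, rfl⟩)
  have h1F : (1 : (MvPolynomial σ (PowerSeries k))) ∈ F := by
    apply hFmem
    intro n hn
    rw [mem_support_iff, coeff_one] at hn
    have : (0 : σ →₀ ℕ) = n := by
      by_contra h
      rw [if_neg h] at hn
      exact hn rfl
    rw [← this, hA]
    exact Finset.mem_insert_self _ _
  set I' : Submodule (PowerSeries k) (MvPolynomial σ (PowerSeries k)) := I.restrictScalars (PowerSeries k) with hI'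
  obtain ⟨r, hr, hr1⟩ := krull1 (F.map I'.mkQ) (hFfg.map _) (PowerSeries.X : PowerSeries k)
    (I'.mkQ 1) ⟨1, h1F, rfl⟩ (by
      intro j
      cases j with
      | zero => exact ⟨I'.mkQ 1, ⟨1, h1F, rfl⟩, by simp⟩
      | succ j =>
        obtain ⟨gj, hs, hm⟩ := step4 j
        refine ⟨I'.mkQ gj, ⟨gj, hFmem gj (hs.trans (Finset.subset_insert _ _)), rfl⟩, ?_⟩
        rw [← map_smul, ← sub_eq_zero, ← map_sub, Submodule.mkQ_apply,
          Submodule.Quotient.mk_eq_zero]
        have e : (1 : (MvPolynomial σ (PowerSeries k))) - (PowerSeries.X : PowerSeries k) ^ (j + 1) • gj =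
            1 - τ ^ (j + 1) * gj := by
          rw [hτ, tau, ← C_pow, smul_eq_C_mul]
        rw [e]
        exact hm)
  have h1I : (1 : (MvPolynomial σ (PowerSeries k))) ∈ I := by
    have hu : IsUnit (1 - r) := by
      apply IsLocalRing.isUnit_one_sub_self_of_mem_nonunits
      rw [← IsLocalRing.mem_maximalIdeal]
      obtain ⟨s, rfl⟩ := Ideal.mem_span_singleton.1 hr
      apply Ideal.mul_mem_right
      rw [IsLocalRing.mem_maximalIdeal, mem_nonunits_iff]
      exact PowerSeries.X_prime.not_unit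
    have h2 : (1 - r) • I'.mkQ 1 = 0 := by
      rw [sub_smul, one_smul, hr1, sub_self]
    have h3 : I'.mkQ 1 = 0 := by
      have := congrArg (fun y => ((hu.unit⁻¹ : (PowerSeries k)ˣ) : PowerSeries k) • y) h2
      simp only [smul_smul, smul_zero, IsUnit.val_inv_mul, one_smul] at this
      exact this
    rw [Submodule.mkQ_apply, Submodule.Quotient.mk_eq_zero] at h3
    exact h3
  intro x hx
  have := h1I x hx
  rwa [one_smul] at this

end Pool.Agent.W782.ND
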